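import Pool.Agent.W570.AV.A5

/-!
# The averaged Mahler inequality for all convex bodies, with arbitrary weights

For a convex body `K` in `ℝⁿ` (no symmetry) let the position vary: average `φ(z) / M_∞(K - z)` over
`z ∈ K`, where `M_∞(K) = |K| ∫ exp(-h_K)` is the Mahler volume (the case `p = ∞` of the problem) and
`φ ≥ 0` is any measurable weight. The average is at most
`∫_0^1 (s (1 - s))ⁿ E φ(s U + (1 - s) V) ds`, where `U` and `V` are independent random points of
`K`. For the standard simplex there is equality for every weight. For `φ = 1` the bound is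
`(n!)² / (2n+1)!` for all bodies, so the mean of `1 / M_∞(K - z)` over the positions `z ∈ K` is
largest for the simplex. The inequality is the average of a lower bound for `M_∞(K - z)` at every
single position, in terms of the chords of `K` through `z`, which is included.

The proof is the one of the starting modules `Pool.Agent.W570.AV`, which had been used only as a
step in the proof of Mahler's conjecture and had not been handed in.
-/

set_option autoImplicit false

noncomputable section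

open MeasureTheory
open scoped ENNReal

namespace Pool.Agent.Results.MP_5f4cdd_gt.AveragedMahler

/-- convex bodies in `ℝⁿ` (in any position) -/
def Body {n : ℕ} (K : Set (Fin n → ℝ)) : Prop := Convex ℝ K ∧ IsCompact K ∧ (interior K).Nonempty

/-- The classical Mahler volume `M_∞(K) = vol(K) ∫ exp(-h_K(y)) dy` (the case `p = ∞`), where
`h_K(y) = sup_{x ∈ K} ⟨x, y⟩`. -/
def mahlerInf {n : ℕ} (K : Set (Fin n → ℝ)) : ℝ≥0∞ :=
  volume K * ∫⁻ y : Fin n → ℝ, ENNReal.ofReal
    (Real.exp (-(sSup ((fun x : Fin n → ℝ => ∑ i, x i * y i) '' K))))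

/-- the translate `K - z` -/
def shift {n : ℕ} (K : Set (Fin n → ℝ)) (z : Fin n → ℝ) : Set (Fin n → ℝ) :=
  (fun x => x - z) '' K

/-- the standard simplex `Δ_n` -/
def simplex (n : ℕ) : Set (Fin n → ℝ) := {z | (∀ i, 0 ≤ z i) ∧ ∑ i, z i ≤ 1}

/-- the mean over the positions `z ∈ K` of `φ(z) / M_∞(K - z)` -/
def positionMean {n : ℕ} (φ : (Fin n → ℝ) → ℝ≥0∞) (K : Set (Fin n → ℝ)) : ℝ≥0∞ :=
  (volume K)⁻¹ * ∫⁻ z in K, φ z * (mahlerInf (shift K z))⁻¹

/-- `∫_0^1 (s (1 - s))ⁿ E φ(s U + (1 - s) V) ds` for independent uniform points `U`, `V` of `K` -/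
def segmentMean {n : ℕ} (φ : (Fin n → ℝ) → ℝ≥0∞) (K : Set (Fin n → ℝ)) : ℝ≥0∞ :=
  ∫⁻ s in Set.Ioo (0:ℝ) 1, ENNReal.ofReal ((s * (1 - s)) ^ n) *
    ((volume K)⁻¹ * ∫⁻ u in K, (volume K)⁻¹ * ∫⁻ v in K, φ (s • u + (1 - s) • v))

/-- the chord function: `∫ |{s ∈ (0,1) : z + Y/s ∈ K, z - Y/(1-s) ∈ K}| dY` -/
def chords {n : ℕ} (K : Set (Fin n → ℝ)) (z : Fin n → ℝ) : ℝ≥0∞ :=
  ∫⁻ Y : Fin n → ℝ, volume {s : ℝ | s ∈ Set.Ioo (0:ℝ) 1 ∧ z + s⁻¹ • Y ∈ K ∧ z - (1 - s)⁻¹ • Y ∈ K}

/-- **The averaged Mahler inequality with weights, sharp for the simplex.** -/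
theorem result (n : ℕ) :
    -- every body and every weight
    (∀ K : Set (Fin n → ℝ), Body K → ∀ φ : (Fin n → ℝ) → ℝ≥0∞, Measurable φ →
      positionMean φ K ≤ segmentMean φ K) ∧
    -- equality for the simplex, for every weight
    (∀ φ : (Fin n → ℝ) → ℝ≥0∞, Measurable φ →
      positionMean φ (simplex n) = segmentMean φ (simplex n)) ∧
    -- without weight: the mean is largest for the simplex
    (∀ K : Set (Fin n → ℝ), Body K →
      positionMean (fun _ => 1) K ≤ positionMean (fun _ => 1) (simplex n)) ∧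
    positionMean (fun _ => 1) (simplex n) =
      ENNReal.ofReal ((n.factorial : ℝ) ^ 2 / (2 * n + 1).factorial) ∧
    -- the bound at a single position, and its relation to the right-hand side above
    (∀ K : Set (Fin n → ℝ), Body K →
      (∀ z ∈ interior K, (mahlerInf (shift K z))⁻¹ ≤ (volume K)⁻¹ * chords K z) ∧
      ∀ φ : (Fin n → ℝ) → ℝ≥0∞, Measurable φ →
        segmentMean φ K = (volume K)⁻¹ * ∫⁻ z in K, φ z * ((volume K)⁻¹ * chords K z)) := by
  refine ⟨fun K hK φ hφ => ?_, fun φ hφ => ?_, fun K hK => ?_, ?_, fun K hK => ⟨fun z hz => ?_,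
    fun φ hφ => ?_⟩⟩
  · exact Pool.Agent.W570.AV.mean_le hK.1 hK.2.1 hK.2.2 φ hφ
  · exact Pool.Agent.W570.AV.mean_sx_w φ hφ
  · have h := Pool.Agent.W570.AV.mean_le hK.1 hK.2.1 hK.2.2 (fun _ => 1) measurable_const
    rw [Pool.Agent.W570.AV.seg_one hK.1 hK.2.1 hK.2.2, ← Pool.Agent.W570.AV.mean_sx] at h
    exact h
  · exact Pool.Agent.W570.AV.mean_sx
  · exact Pool.Agent.W570.AV.point hK.1 hK.2.1 hz
  · have h0 : volume K ≠ 0 := ((isOpen_interior.measure_pos volume hK.2.2).trans_le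
      (measure_mono interior_subset)).ne'
    exact Pool.Agent.W570.AV.seg_eq hK.1 hK.2.1 h0 φ hφ

end Pool.Agent.Results.MP_5f4cdd_gt.AveragedMahler
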