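import Pool.Agent.Q179.MA.Fin
import Pool.Agent.Q179.MA.Dec

/-!
# The functional form of Mahler's inequality for general (not necessarily even) functions

For every measurable log-concave `f : ℝⁿ → [0, ∞)` with `0 < ∫ f < ∞` and every `z ∈ ℝⁿ`,
`(∫ f) (∫ f^z) ≥ eⁿ`, where `f^z(w) = inf_x exp(-⟨x - z, w⟩) / f(x)` is the polar function with respect
to `z`. There is equality for `f(x) = exp(-∑ x_i)` on `{x_i ≥ -1}` and `z = 0`, so `eⁿ` is best
possible in every dimension.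
-/

set_option autoImplicit false

noncomputable section

open MeasureTheory
open scoped ENNReal Matrix

namespace Pool.Agent.Results.MP_5f4cdd_gt.FunctionalMahler

/-- log-concave functions `f : ℝⁿ → [0, ∞)` -/
def LogConcave {n : ℕ} (f : (Fin n → ℝ) → ℝ) : Prop :=
  (∀ x, 0 ≤ f x) ∧ ∀ (x y : Fin n → ℝ) (a b : ℝ), 0 ≤ a → 0 ≤ b → a + b = 1 →
    f x ^ a * f y ^ b ≤ f (a • x + b • y)

/-- `∫ f` -/
def mass {n : ℕ} (f : (Fin n → ℝ) → ℝ) : ℝ≥0∞ := ∫⁻ x, ENNReal.ofReal (f x)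

/-- the polar function `f^z(w) = inf_x exp(-⟨x - z, w⟩) / f(x)` (a quotient by `0` is `∞`) -/
def polarFun {n : ℕ} (f : (Fin n → ℝ) → ℝ) (z w : Fin n → ℝ) : ℝ≥0∞ :=
  ⨅ x : Fin n → ℝ, ENNReal.ofReal (Real.exp (-∑ i, (x i - z i) * w i)) / ENNReal.ofReal (f x)

open Classical in
/-- the function `exp(-∑ x_i)` on `{x_i ≥ -1}`, zero elsewhere -/
def extremal (n : ℕ) (x : Fin n → ℝ) : ℝ := if ∀ i, -1 ≤ x i then Real.exp (-∑ i, x i) else 0

lemma ext_eq (n : ℕ) : extremal n = Pool.Agent.Q179.MA.Fn.ex n := rfl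

/-- **The functional form of Mahler's inequality** -/
theorem result (n : ℕ) :
    (∀ f : (Fin n → ℝ) → ℝ, LogConcave f → Measurable f → 0 < mass f → mass f < ⊤ →
      ∀ z : Fin n → ℝ, ENNReal.ofReal (Real.exp n) ≤ mass f * ∫⁻ w, polarFun f z w) ∧
    (LogConcave (extremal n) ∧ Measurable (extremal n) ∧
      0 < mass (extremal n) ∧ mass (extremal n) < ⊤ ∧
      mass (extremal n) * ∫⁻ w, polarFun (extremal n) 0 w = ENNReal.ofReal (Real.exp n)) := by
  refine ⟨fun f hf hfm h0 hfin z => ?_, ?_, ?_, ?_, ?_, ?_⟩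
  · have hLC : Pool.Agent.TH808.Fun.LC f := ⟨hf.1, hf.2⟩
    by_cases hz : z ∈ interior {x | 0 < f x}
    · exact Pool.Agent.Q179.MA.Fn.any_pos hLC hfm hfin hz
    · have h1 : ∫⁻ w, polarFun f z w = ⊤ :=
        Pool.Agent.Q179.MA.Fn.polar_top hLC hfm hfin h0 hz
      rw [h1, ENNReal.mul_top h0.ne']
      exact le_top
  · have h := Pool.Agent.Q179.MA.Fn.ex_LC (n := n)
    exact ⟨h.nonneg, h.conc⟩
  · exact Pool.Agent.Q179.MA.Fn.ex_meas
  · have h : mass (extremal n) = ENNReal.ofReal (Real.exp n) := Pool.Agent.Q179.MA.Fn.ex_int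
    rw [h]
    exact ENNReal.ofReal_pos.2 (Real.exp_pos _)
  · have h : mass (extremal n) = ENNReal.ofReal (Real.exp n) := Pool.Agent.Q179.MA.Fn.ex_int
    rw [h]
    exact ENNReal.ofReal_lt_top
  · have h := Pool.Agent.Q179.MA.Fn.ex_eq (n := n)
    have e : ∀ w, polarFun (extremal n) 0 w = ⨅ x : Fin n → ℝ,
        ENNReal.ofReal (Real.exp (-(x ⬝ᵥ w))) /
          ENNReal.ofReal (Pool.Agent.Q179.MA.Fn.ex n x) := fun w => by
      unfold polarFun dotProduct
      rw [ext_eq]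
      simp
    simp_rw [e]
    exact h

end Pool.Agent.Results.MP_5f4cdd_gt.FunctionalMahler
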