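import Pool.Agent.W679.AM.Sharp
import Pool.Agent.TH388.E2
import Pool.Agent.TH581.S11
import Pool.Agent.TH649.LP.C4

/-!
# The harmonic-body inequality at every position, and its consequences for the `L^p`-Mahler volume

For a convex body `K` in `ℝⁿ` (no symmetry) and an interior point `z`, the harmonic body `(K - z)'`
is the set of `x` with `|⟨x, u⟩| ≤ (1/h(u) + 1/h(-u))⁻¹` for all `u`, where `h = h_{K-z}`. Then
`|(K - z)'| |(K - z)°| ≥ 2ⁿ/n!`, with equality for the simplex at **every** interior point `z`; for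
bodies symmetric about `z` it is Mahler's inequality for symmetric bodies. Hence bounds for
`M_p(K - z)` for every `p ∈ (0,∞]` and every position `z`, and the inequality of the problem in high
dimensions at every position with a small harmonic body.
-/

set_option autoImplicit false

noncomputable section

open MeasureTheory
open scoped ENNReal Pointwise RealInnerProductSpace Matrix

namespace Pool.Agent.Results.MP_5f4cdd_gt.HarmonicBody

/-- convex bodies in `ℝⁿ` (in any position) -/
def Body {n : ℕ} (K : Set (Fin n → ℝ)) : Prop := Convex ℝ K ∧ IsCompact K ∧ (interior K).Nonempty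

/-- The `L^p`-Mahler volume `M_p(K) = vol(K) ∫ exp(-h_{p,K}(y)) dy` for `0 < p < ∞`, where
`exp(-h_{p,K}(y)) = ((1/vol K) ∫_K exp(p⟨x,y⟩) dx)^(-1/p)`. -/
def mahlerVolume {n : ℕ} (p : ℝ) (K : Set (Fin n → ℝ)) : ℝ≥0∞ :=
  volume K * ∫⁻ y : Fin n → ℝ, ENNReal.ofReal
    (((∫ x in K, Real.exp (p * ∑ i, x i * y i)) / (volume K).toReal) ^ (-(1 / p)))

/-- The classical Mahler volume `M_∞(K) = vol(K) ∫ exp(-h_K(y)) dy` (the case `p = ∞`), where
`h_K(y) = sup_{x ∈ K} ⟨x, y⟩`. -/
def mahlerInf {n : ℕ} (K : Set (Fin n → ℝ)) : ℝ≥0∞ :=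
  volume K * ∫⁻ y : Fin n → ℝ, ENNReal.ofReal
    (Real.exp (-(sSup ((fun x : Fin n → ℝ => ∑ i, x i * y i) '' K))))

/-- the standard simplex `Δ_n` -/
def simplex (n : ℕ) : Set (Fin n → ℝ) := {z | (∀ i, 0 ≤ z i) ∧ ∑ i, z i ≤ 1}

/-- the infimum of `M_p(Δ_n - x)` over `x ∈ Δ_n` -/
def simplexInf (n : ℕ) (p : ℝ) : ℝ≥0∞ :=
  ⨅ x ∈ simplex n, mahlerVolume p ((fun z : Fin n → ℝ => z - x) '' simplex n)

/-- the translate `K - z` -/
def shift {n : ℕ} (K : Set (Fin n → ℝ)) (z : Fin n → ℝ) : Set (Fin n → ℝ) := (fun x => x - z) '' K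

/-- the support function `h_K(u) = sup_{x ∈ K} ⟨x, u⟩` -/
def supp {n : ℕ} (K : Set (Fin n → ℝ)) (u : Fin n → ℝ) : ℝ := sSup ((fun x => ∑ i, x i * u i) '' K)

/-- the harmonic body `K' = {x : |⟨x, u⟩| (h_K(u) + h_K(-u)) ≤ h_K(u) h_K(-u) for all u}`, that is,
`|⟨x, u⟩| ≤ (1/h_K(u) + 1/h_K(-u))⁻¹` for all `u ≠ 0` if `0` is an interior point of `K` -/
def harmonic {n : ℕ} (K : Set (Fin n → ℝ)) : Set (Fin n → ℝ) :=
  {x | ∀ u, |∑ i, x i * u i| * (supp K u + supp K (-u)) ≤ supp K u * supp K (-u)}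

/-- the polar body `K° = {y : ⟨x, y⟩ ≤ 1 for all x ∈ K}` -/
def polar {n : ℕ} (K : Set (Fin n → ℝ)) : Set (Fin n → ℝ) := {y | ∀ x ∈ K, ∑ i, x i * y i ≤ 1}

/-- the rate `r(p) = e^(1+1/p) p^(1/p) Γ(1+1/p)`, the limit of the `n`-th roots of the infima
`inf_x M_p(Δ_n - x)`; it tends to `e` as `p → ∞` -/
def rate (p : ℝ) : ℝ := Real.exp (1 + 1 / p) * p ^ (1 / p) * Real.Gamma (1 + 1 / p)

/-- `c(p) = (1+1/p)^((1+1/p)/2) (p/2π)^(1/(2p))`; it tends to `1` as `p → ∞` -/
def cst (p : ℝ) : ℝ := (1 + 1 / p) ^ ((1 + 1 / p) / 2) * (p / (2 * Real.pi)) ^ (1 / (2 * p))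

/-! ### the passage to Euclidean space -/

/-- the copy in Euclidean space -/
def toE {n : ℕ} (K : Set (Fin n → ℝ)) : Set (EuclideanSpace ℝ (Fin n)) := WithLp.ofLp ⁻¹' K

variable {n : ℕ} {K : Set (Fin n → ℝ)} {z : Fin n → ℝ}

lemma shift_body (hK : Body K) (z : Fin n → ℝ) : Body (shift K z) := by
  refine ⟨?_, hK.2.1.image (by fun_prop), ?_⟩
  · have e : shift K z = (fun x => -z + x) '' K := by
      unfold shift
      refine Set.image_congr fun x _ => ?_
      abel
    rw [e]
    exact hK.1.translate (-z)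
  · have h := (Homeomorph.subRight z).image_interior K
    have e : shift K z = (Homeomorph.subRight z) '' K := rfl
    rw [e, ← h]
    exact hK.2.2.image _

lemma shift_zero (hz : z ∈ interior K) : (0 : Fin n → ℝ) ∈ interior (shift K z) := by
  have h := (Homeomorph.subRight z).image_interior K
  have e : shift K z = (Homeomorph.subRight z) '' K := rfl
  rw [e, ← h]
  exact ⟨z, hz, by simp⟩

lemma vol_shift (K : Set (Fin n → ℝ)) (z : Fin n → ℝ) : volume (shift K z) = volume K := by
  have e : shift K z = (fun x => x + (-z)) '' K := by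
    unfold shift
    refine Set.image_congr fun x _ => ?_
    abel
  rw [e, Set.image_add_right, measure_preimage_add_right]

lemma toE_img (K : Set (Fin n → ℝ)) : toE K = WithLp.toLp 2 '' K := by
  ext x
  constructor
  · intro h
    exact ⟨_, h, rfl⟩
  · rintro ⟨y, hy, rfl⟩
    exact hy

lemma toE_compact (hK : IsCompact K) : IsCompact (toE K) := by
  rw [toE_img]
  exact hK.image (PiLp.continuous_toLp 2 _)

lemma toE_convex (hK : Convex ℝ K) : Convex ℝ (toE K) := by
  intro x hx y hy a b ha hb hab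
  exact hK hx hy ha hb hab

lemma toE_interior (hz : z ∈ interior K) : WithLp.toLp 2 z ∈ interior (toE K) := by
  have h : Continuous (WithLp.ofLp : EuclideanSpace ℝ (Fin n) → (Fin n → ℝ)) :=
    PiLp.continuous_ofLp 2 _
  exact preimage_interior_subset_interior_preimage h hz

lemma toE_vol (hK : MeasurableSet K) : volume (toE K) = volume K :=
  (PiLp.volume_preserving_ofLp (Fin n)).measure_preimage hK.nullMeasurableSet

lemma inner_toLp (x y : EuclideanSpace ℝ (Fin n)) :
    ⟪x, y⟫ = ∑ i, WithLp.ofLp x i * WithLp.ofLp y i := by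
  rw [PiLp.inner_apply]
  exact Finset.sum_congr rfl fun i _ => by simp [mul_comm]

lemma supp_toE (K : Set (Fin n → ℝ)) (z : Fin n → ℝ) (u : EuclideanSpace ℝ (Fin n)) :
    W679AM.hz (toE K) (WithLp.toLp 2 z) u = supp (shift K z) (WithLp.ofLp u) := by
  unfold W679AM.hz supp shift
  congr 1
  ext t
  constructor
  · rintro ⟨x, hx, rfl⟩
    refine ⟨_, ⟨WithLp.ofLp x, hx, rfl⟩, ?_⟩
    simp only
    rw [inner_toLp]
    rfl
  · rintro ⟨_, ⟨x, hx, rfl⟩, rfl⟩
    refine ⟨WithLp.toLp 2 x, hx, ?_⟩
    simp only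
    rw [inner_toLp]
    rfl

lemma harmonic_toE (K : Set (Fin n → ℝ)) (z : Fin n → ℝ) :
    W679AM.prz (toE K) (WithLp.toLp 2 z) = toE (harmonic (shift K z)) := by
  ext x
  constructor
  · intro h u
    have h1 := h (WithLp.toLp 2 u)
    rw [supp_toE, supp_toE, inner_toLp] at h1
    exact h1
  · intro h u
    have h1 := h (WithLp.ofLp u)
    rw [supp_toE, supp_toE, inner_toLp]
    exact h1

lemma polar_toE (K : Set (Fin n → ℝ)) (z : Fin n → ℝ) :
    W679AM.plz (toE K) (WithLp.toLp 2 z) = toE (polar (shift K z)) := by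
  ext y
  constructor
  · rintro h _ ⟨x, hx, rfl⟩
    have h1 := h (WithLp.toLp 2 x) hx
    rw [inner_toLp] at h1
    exact h1
  · intro h x hx
    have h1 := h _ ⟨WithLp.ofLp x, hx, rfl⟩
    rw [inner_toLp]
    exact h1

lemma polar_closed (K : Set (Fin n → ℝ)) : IsClosed (polar K) := by
  have : polar K = ⋂ x ∈ K, {y | ∑ i, x i * y i ≤ 1} := by
    ext y; simp [polar]
  rw [this]
  exact isClosed_biInter fun x _ => isClosed_le (by fun_prop) continuous_const

lemma harmonic_closed (K : Set (Fin n → ℝ)) : IsClosed (harmonic K) := by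
  have : harmonic K = ⋂ u, {x | |∑ i, x i * u i| * (supp K u + supp K (-u)) ≤
      supp K u * supp K (-u)} := by
    ext x; simp [harmonic]
  rw [this]
  exact isClosed_iInter fun u => isClosed_le (by fun_prop) continuous_const

lemma harmonic_vol (K : Set (Fin n → ℝ)) (z : Fin n → ℝ) :
    volume (W679AM.prz (toE K) (WithLp.toLp 2 z)) = volume (harmonic (shift K z)) := by
  rw [harmonic_toE, toE_vol (harmonic_closed _).measurableSet]

lemma polar_vol (K : Set (Fin n → ℝ)) (z : Fin n → ℝ) :
    volume (W679AM.plz (toE K) (WithLp.toLp 2 z)) = volume (polar (shift K z)) := by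
  rw [polar_toE, toE_vol (polar_closed _).measurableSet]

/-- the main inequality -/
lemma main (hK : Body K) (hz : z ∈ interior K) :
    ENNReal.ofReal (2 ^ n / n.factorial) ≤
      volume (harmonic (shift K z)) * volume (polar (shift K z)) := by
  have h := W679AM.asym_ennreal (toE_compact hK.2.1) (toE_convex hK.1) (toE_interior hz)
  rwa [harmonic_vol, polar_vol] at h

lemma simplex_toE (n : ℕ) : toE (simplex n) = W679AM.sx n := rfl

lemma simplex_body (n : ℕ) : Body (simplex n) := by
  refine ⟨?_, ?_, ?_⟩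
  · intro x hx y hy a b ha hb hab
    exact W679AM.sx_convex n (x := WithLp.toLp 2 x) hx (y := WithLp.toLp 2 y) hy ha hb hab
  · have h := (W679AM.sx_compact n).image (PiLp.continuous_ofLp 2 (fun _ : Fin n => ℝ))
    have e : WithLp.ofLp '' W679AM.sx n = simplex n := by
      ext x
      constructor
      · rintro ⟨y, hy, rfl⟩
        exact hy
      · intro hx
        exact ⟨WithLp.toLp 2 x, hx, rfl⟩
    rwa [e] at h
  · refine ⟨fun _ => 1 / ((n:ℝ) + 1), mem_interior.2 ⟨{x | (∀ i, 0 < x i) ∧ ∑ i, x i < 1},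
      fun x hx => ⟨fun i => (hx.1 i).le, hx.2.le⟩, ?_, fun _ => by positivity, ?_⟩⟩
    · have : {x : Fin n → ℝ | (∀ i, 0 < x i) ∧ ∑ i, x i < 1} =
          (⋂ i, {x : Fin n → ℝ | 0 < x i}) ∩ {x : Fin n → ℝ | ∑ i, x i < 1} := by
        ext x; simp
      rw [this]
      exact (isOpen_iInter_of_finite fun i => isOpen_lt continuous_const (by fun_prop)).inter
        (isOpen_lt (by fun_prop) continuous_const)
    · rw [Finset.sum_const, Finset.card_univ, Fintype.card_fin, nsmul_eq_mul, mul_one_div,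
        div_lt_one (by positivity)]
      linarith

lemma simplex_int (hz : z ∈ interior (simplex n)) : (∀ i, 0 < z i) ∧ ∑ i, z i < 1 := by
  obtain ⟨ε, hε, hb⟩ := Metric.isOpen_iff.1 isOpen_interior z hz
  have hsub : ∀ w : Fin n → ℝ, (∀ i, |w i - z i| ≤ ε / 2) → w ∈ simplex n := by
    intro w hw
    refine interior_subset (hb ?_)
    rw [Metric.mem_ball]
    refine lt_of_le_of_lt ((dist_pi_le_iff (by positivity)).2 fun i => ?_) (half_lt_self hε)
    rw [Real.dist_eq]
    exact hw i
  constructor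
  · intro i
    have h := (hsub (fun j => z j - ε / 2) fun j => by
      rw [sub_sub_cancel_left, abs_neg, abs_of_pos (by positivity)]).1 i
    simp only at h
    linarith
  · rcases Nat.eq_zero_or_pos n with h0 | h0
    · subst h0
      simp
    · have h := (hsub (fun j => z j + ε / 2) fun j => by
        rw [add_sub_cancel_left, abs_of_pos (by positivity)]).2
      rw [Finset.sum_add_distrib, Finset.sum_const, Finset.card_univ, Fintype.card_fin,
        nsmul_eq_mul] at h
      have : 0 < (n:ℝ) * (ε / 2) := by positivity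
      linarith

/-- equality for the simplex at every interior point -/
lemma simplex_eq (hz : z ∈ interior (simplex n)) :
    volume (harmonic (shift (simplex n) z)) * volume (polar (shift (simplex n) z)) =
      ENNReal.ofReal (2 ^ n / n.factorial) := by
  obtain ⟨h1, h2⟩ := simplex_int hz
  have h := W679AM.sharp (n := n) (z := WithLp.toLp 2 z) h1 h2
  rw [Measure.real, Measure.real, ← simplex_toE, harmonic_vol, polar_vol,
    ← ENNReal.toReal_mul] at h
  rw [← h, ENNReal.ofReal_toReal]
  intro htop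
  rw [htop, ENNReal.toReal_top] at h
  have : (0:ℝ) < 2 ^ n / n.factorial := by positivity
  linarith

lemma supp_symm (hs : ∀ x ∈ K, -x ∈ K) (u : Fin n → ℝ) : supp K (-u) = supp K u := by
  unfold supp
  congr 1
  ext t
  constructor
  · rintro ⟨x, hx, rfl⟩
    exact ⟨-x, hs x hx, by simp⟩
  · rintro ⟨x, hx, rfl⟩
    exact ⟨-x, hs x hx, by simp⟩

/-- the harmonic body of a symmetric body -/
lemma harmonic_symm (hK : Body K) (h0 : (0 : Fin n → ℝ) ∈ interior K) (hs : ∀ x ∈ K, -x ∈ K) :
    harmonic K = {x | (2:ℝ) • x ∈ K} := by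
  have e0 : shift K 0 = K := by simp [shift]
  have hz := toE_interior h0
  ext x
  constructor
  · intro hx
    have hx' : WithLp.toLp 2 x ∈ W679AM.prz (toE K) (WithLp.toLp 2 0) := by
      rw [harmonic_toE, e0]
      exact hx
    obtain ⟨y, hy, hyx⟩ := W679AM.prz_subset (toE_compact hK.2.1) (toE_convex hK.1) hz one_pos
      (c := 0) (fun w hw => by
        rw [sub_zero, inv_one, one_smul, zero_sub]
        exact hs _ hw) hx'
    have : (2:ℝ) • x = WithLp.ofLp y := by
      have h1 := congrArg WithLp.ofLp hyx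
      simp only [sub_self, zero_div, zero_smul, sub_zero, WithLp.ofLp_smul] at h1
      rw [← h1, smul_smul]
      norm_num
    show (2:ℝ) • x ∈ K
    rw [this]
    exact hy
  · intro hx u
    rw [supp_symm hs]
    have hbd : BddAbove ((fun x : Fin n → ℝ => ∑ i, x i * u i) '' K) :=
      (hK.2.1.image (by fun_prop : Continuous fun x : Fin n → ℝ => ∑ i, x i * u i)).bddAbove
    have h1 : 2 * ∑ i, x i * u i ≤ supp K u := by
      have := le_csSup hbd ⟨_, hx, rfl⟩
      refine le_trans (le_of_eq ?_) this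
      rw [Finset.mul_sum]
      exact Finset.sum_congr rfl fun i _ => by simp; ring
    have h2 : -(2 * ∑ i, x i * u i) ≤ supp K u := by
      have := le_csSup hbd ⟨_, hs _ hx, rfl⟩
      refine le_trans (le_of_eq ?_) this
      rw [Finset.mul_sum, ← Finset.sum_neg_distrib]
      exact Finset.sum_congr rfl fun i _ => by simp; ring
    have h3 : 2 * |∑ i, x i * u i| ≤ supp K u := by
      rcases abs_cases (∑ i, x i * u i) with h | h <;> rw [h.1] <;> linarith
    have h4 : 0 ≤ supp K u := le_trans (by positivity) h3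
    nlinarith

/-- the Mahler volume at the position `z` in terms of the polar body -/
lemma inf_eq (hK : Body K) (hz : z ∈ interior K) :
    mahlerInf (shift K z) = (n.factorial : ℝ≥0∞) * (volume K * volume (polar (shift K z))) := by
  have h := Pool.Agent.W570.AV.mah_eq hK.1 hK.2.1 hz
  have e1 : mahlerInf (shift K z) = Pool.Agent.W570.AV.mah (Pool.Agent.W570.AV.tr z K) := rfl
  have e2 : polar (shift K z) = Pool.Agent.H845R2.polc (Pool.Agent.W570.AV.tr z K) := rfl
  rw [e1, e2, h]
  ring

/-- `p = ∞` -/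
lemma low_inf (hK : Body K) (hz : z ∈ interior K) :
    ENNReal.ofReal (2 ^ n) * volume K / volume (harmonic (shift K z)) ≤ mahlerInf (shift K z) := by
  refine ENNReal.div_le_of_le_mul ?_
  have h := main hK hz
  have hf : (0:ℝ) < n.factorial := by positivity
  have e : ENNReal.ofReal (2 ^ n) = (n.factorial : ℝ≥0∞) * ENNReal.ofReal (2 ^ n / n.factorial) := by
    rw [← ENNReal.ofReal_natCast, ← ENNReal.ofReal_mul hf.le]
    congr 1
    field_simp
  rw [inf_eq hK hz, e]
  calc (n.factorial : ℝ≥0∞) * ENNReal.ofReal (2 ^ n / n.factorial) * volume K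
      ≤ (n.factorial : ℝ≥0∞) * (volume (harmonic (shift K z)) * volume (polar (shift K z))) *
          volume K := by gcongr
    _ = _ := by ring

lemma cb (hK : Body K) : Pool.Agent.H404R2.TH.CB K := ⟨hK.2.1, hK.1, hK.2.2⟩

/-- finite `p` -/
lemma low_p (hK : Body K) (hz : z ∈ interior K) {p : ℝ} (hp : 0 < p) :
    ENNReal.ofReal (cst p ^ n) *
      (ENNReal.ofReal (2 ^ n) * volume K / volume (harmonic (shift K z))) ^ (1 + 1 / (2 * p)) ≤
        mahlerVolume p (shift K z) := by
  have h := Pool.Agent.TH581.S.comp (cb (shift_body hK z)) hp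
  have e : Pool.Agent.W570.AV.mah (shift K z) = mahlerInf (shift K z) := rfl
  rw [e] at h
  refine le_trans ?_ h
  have hexp : 0 ≤ 1 + 1 / (2 * p) := by positivity
  exact mul_le_mul_right (ENNReal.rpow_le_rpow (low_inf hK hz) hexp) _

lemma vol_pos (hK : Body K) : volume K ≠ 0 :=
  ((isOpen_interior.measure_pos volume hK.2.2).trans_le (measure_mono interior_subset)).ne'

lemma vol_fin (hK : Body K) : volume K ≠ ⊤ := hK.2.1.measure_lt_top.ne

lemma small {δ : ℝ} (hδ : 0 < δ) (hK : Body K) (hz : z ∈ interior K)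
    (h : volume (harmonic (shift K z)) ≤ ENNReal.ofReal (δ ^ n) * volume K) :
    ENNReal.ofReal ((2 / δ) ^ n) ≤ mahlerInf (shift K z) := by
  refine le_trans ?_ (low_inf hK hz)
  refine le_trans ?_ (ENNReal.div_le_div_left h _)
  rw [mul_comm (ENNReal.ofReal (2 ^ n)), mul_comm (ENNReal.ofReal (δ ^ n)),
    ENNReal.mul_div_mul_left _ _ (vol_pos hK) (vol_fin hK),
    ← ENNReal.ofReal_div_of_pos (by positivity), div_pow]

lemma high {p δ : ℝ} (hp : 0 < p) (hδ : 0 < δ)
    (h : rate p < cst p * (2 / δ) ^ (1 + 1 / (2 * p))) :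
    ∃ n₀ : ℕ, ∀ n : ℕ, n₀ ≤ n → ∀ K : Set (Fin n → ℝ), Body K → ∀ z ∈ interior K,
      volume (harmonic (shift K z)) ≤ ENNReal.ofReal (δ ^ n) * volume K →
        simplexInf n p < mahlerVolume p (shift K z) := by
  obtain ⟨n0, hn0⟩ := Pool.Agent.TH649.LP.II_lt hp h
  refine ⟨n0, fun n hn K hK z hz hh => ?_⟩
  have e : simplexInf n p = Pool.Agent.H131R5.LC.II n p := rfl
  rw [e]
  exact lt_of_lt_of_le (hn0 n hn) (Pool.Agent.TH581.S.low_of (cb (shift_body hK z)) hp
    (by positivity) (small hδ hK hz hh))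

/-- **The harmonic-body inequality at every position, and the `L^p`-Mahler volume.** -/
theorem result :
    -- the inequality, for all bodies and all positions
    (∀ n : ℕ, ∀ K : Set (Fin n → ℝ), Body K → ∀ z ∈ interior K,
      ENNReal.ofReal (2 ^ n / n.factorial) ≤
        volume (harmonic (shift K z)) * volume (polar (shift K z))) ∧
    -- equality for the simplex at every interior point
    (∀ n : ℕ, ∀ z ∈ interior (simplex n),
      volume (harmonic (shift (simplex n) z)) * volume (polar (shift (simplex n) z)) =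
        ENNReal.ofReal (2 ^ n / n.factorial)) ∧
    -- for bodies symmetric about the origin it is Mahler's inequality for symmetric bodies
    (∀ n : ℕ, ∀ K : Set (Fin n → ℝ), Body K → (0 : Fin n → ℝ) ∈ interior K → (∀ x ∈ K, -x ∈ K) →
      harmonic K = {x | (2:ℝ) • x ∈ K}) ∧
    -- lower bounds for the Mahler volumes at every position, for `p = ∞` and for finite `p`
    (∀ n : ℕ, ∀ K : Set (Fin n → ℝ), Body K → ∀ z ∈ interior K,
      ENNReal.ofReal (2 ^ n) * volume K / volume (harmonic (shift K z)) ≤ mahlerInf (shift K z) ∧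
      ∀ p : ℝ, 0 < p → ENNReal.ofReal (cst p ^ n) *
        (ENNReal.ofReal (2 ^ n) * volume K / volume (harmonic (shift K z))) ^ (1 + 1 / (2 * p)) ≤
          mahlerVolume p (shift K z)) ∧
    -- the inequality of the problem in high dimensions at every position with a small harmonic body
    (∀ p δ : ℝ, 0 < p → 0 < δ → rate p < cst p * (2 / δ) ^ (1 + 1 / (2 * p)) →
      ∃ n₀ : ℕ, ∀ n : ℕ, n₀ ≤ n → ∀ K : Set (Fin n → ℝ), Body K → ∀ z ∈ interior K,
        volume (harmonic (shift K z)) ≤ ENNReal.ofReal (δ ^ n) * volume K →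
          simplexInf n p < mahlerVolume p (shift K z)) :=
  ⟨fun _ _ hK _ hz => main hK hz, fun _ _ hz => simplex_eq hz,
    fun _ _ hK h0 hs => harmonic_symm hK h0 hs,
    fun _ _ hK _ hz => ⟨low_inf hK hz, fun _ hp => low_p hK hz hp⟩,
    fun _ _ hp hδ h => high hp hδ h⟩

end Pool.Agent.Results.MP_5f4cdd_gt.HarmonicBody
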