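import Pool.Agent.Q179.MA.Base

/-!
# The case `p = ∞`: Mahler's conjecture for all convex bodies, with the cases of equality

For every `n`, every convex body `K` in `ℝⁿ` (symmetric or not) and every position of `K`,
`M_∞(K) ≥ inf_{x ∈ Δ_n} M_∞(Δ_n - x) = (n+1)^(n+1) / n!`, with equality if and only if `K` is a
simplex with centroid at the origin. In other words `|K| |(K - z)°| ≥ (n+1)^(n+1) / (n!)²` for every
interior point `z`, with equality if and only if `K` is a simplex with centroid `z`.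

The proof is the one of the starting modules `Pool.Agent.TH433.MF` (inequality) and
`Pool.Agent.TH537.EQ` (inequality with the cases of equality, origin in the interior), which had been
used only as a step towards finite `p` and had not been handed in.
-/

set_option autoImplicit false

noncomputable section

open MeasureTheory
open scoped ENNReal Matrix

namespace Pool.Agent.Results.MP_5f4cdd_gt.MahlerAllBodies

/-- convex bodies in `ℝⁿ` (in any position) -/
def Body {n : ℕ} (K : Set (Fin n → ℝ)) : Prop := Convex ℝ K ∧ IsCompact K ∧ (interior K).Nonempty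

/-- The classical Mahler volume `M_∞(K) = vol(K) ∫ exp(-h_K(y)) dy` (the case `p = ∞`), where
`h_K(y) = sup_{x ∈ K} ⟨x, y⟩`. -/
def mahlerInf {n : ℕ} (K : Set (Fin n → ℝ)) : ℝ≥0∞ :=
  volume K * ∫⁻ y : Fin n → ℝ, ENNReal.ofReal
    (Real.exp (-(sSup ((fun x : Fin n → ℝ => ∑ i, x i * y i) '' K))))

/-- the standard simplex `Δ_n` -/
def simplex (n : ℕ) : Set (Fin n → ℝ) := {z | (∀ i, 0 ≤ z i) ∧ ∑ i, z i ≤ 1}

/-- the infimum of `M_∞(Δ_n - x)` over `x ∈ Δ_n` -/
def simplexInf (n : ℕ) : ℝ≥0∞ :=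
  ⨅ x ∈ simplex n, mahlerInf ((fun z : Fin n → ℝ => z - x) '' simplex n)

/-- `K` is a simplex with centroid `z`: the convex hull of `n + 1` affinely independent points `v i`
with `∑ (v i - z) = 0` -/
def IsSimplexAt {n : ℕ} (K : Set (Fin n → ℝ)) (z : Fin n → ℝ) : Prop :=
  ∃ v : Fin (n + 1) → (Fin n → ℝ), AffineIndependent ℝ v ∧ ∑ i, (v i - z) = 0 ∧
    K = convexHull ℝ (Set.range v)

/-- the polar body `(K - z)° = {y : ⟨x - z, y⟩ ≤ 1 for all x ∈ K}` -/
def polarAt {n : ℕ} (K : Set (Fin n → ℝ)) (z : Fin n → ℝ) : Set (Fin n → ℝ) :=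
  {y | ∀ x ∈ K, ∑ i, (x i - z i) * y i ≤ 1}

open Pool.Agent.TH808 Pool.Agent.W570.AV Pool.Agent.Q179.MA in
/-- the Mahler volume as in the library -/
lemma mz {n : ℕ} {K : Set (Fin n → ℝ)} (hK : Body K) (z : Fin n → ℝ) :
    mahlerInf ((fun x => x - z) '' K) = MZ K z :=
  (MZ_mah hK.2.1 (hK.2.2.mono interior_subset) z).symm

lemma simplex_body (n : ℕ) : Body (simplex n) :=
  ⟨Pool.Agent.W570.AV.sx_conv 1, Pool.Agent.W570.AV.sx_comp 1 zero_le_one,
    Pool.Agent.W570.AV.sx_int⟩

/-- the value of the infimum -/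
lemma inf_eq (n : ℕ) :
    simplexInf n = ENNReal.ofReal (((n:ℝ) + 1) ^ (n + 1) / n.factorial) := by
  have hB := simplex_body n
  refine le_antisymm ?_ (le_iInf₂ fun x _ => ?_)
  · have hmem : (fun _ => 1 / ((n:ℝ) + 1) : Fin n → ℝ) ∈ simplex n := by
      refine ⟨fun _ => by positivity, ?_⟩
      rw [Finset.sum_const, Finset.card_univ, Fintype.card_fin, nsmul_eq_mul, mul_one_div,
        div_le_one (by positivity)]
      linarith
    refine (iInf₂_le _ hmem).trans (le_of_eq ?_)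
    rw [mz hB]
    exact Pool.Agent.Q179.MA.MZ_center
  · rw [mz hB]
    exact (Pool.Agent.Q179.MA.mahler_eq hB.2.1 hB.1 hB.2.2 x).1

/-- **Mahler's conjecture for all convex bodies, with the cases of equality.** -/
theorem result (n : ℕ) :
    simplexInf n = ENNReal.ofReal (((n:ℝ) + 1) ^ (n + 1) / n.factorial) ∧
    ∀ K : Set (Fin n → ℝ), Body K →
      (simplexInf n ≤ mahlerInf K ∧ (mahlerInf K = simplexInf n ↔ IsSimplexAt K 0)) ∧
      ∀ z ∈ interior K,
        ENNReal.ofReal (((n:ℝ) + 1) ^ (n + 1) / (n.factorial : ℝ) ^ 2) ≤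
          volume K * volume (polarAt K z) ∧
        (volume K * volume (polarAt K z) =
          ENNReal.ofReal (((n:ℝ) + 1) ^ (n + 1) / (n.factorial : ℝ) ^ 2) ↔ IsSimplexAt K z) := by
  refine ⟨inf_eq n, fun K hK => ⟨?_, fun z hz => ?_⟩⟩
  · have h0 : mahlerInf K = Pool.Agent.TH808.MZ K 0 := by
      rw [← mz hK]
      simp
    rw [inf_eq, h0]
    exact Pool.Agent.Q179.MA.mahler_eq hK.2.1 hK.1 hK.2.2 0
  · have h := Pool.Agent.Q179.MA.mahler_eq hK.2.1 hK.1 hK.2.2 z
    have hp : Pool.Agent.TH808.plr K z = polarAt K z := rfl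
    rw [Pool.Agent.TH808.MZ_plr hK.2.1 hK.1 hz, hp] at h
    have hf : (0:ℝ) < n.factorial := by positivity
    have e : ENNReal.ofReal (Pool.Agent.TH808.sv n) = (n.factorial : ℝ≥0∞) *
        ENNReal.ofReal (((n:ℝ) + 1) ^ (n + 1) / (n.factorial : ℝ) ^ 2) := by
      rw [← ENNReal.ofReal_natCast, ← ENNReal.ofReal_mul hf.le]
      congr 1
      unfold Pool.Agent.TH808.sv
      field_simp
    have hf0 : (n.factorial : ℝ≥0∞) ≠ 0 := by
      exact_mod_cast (Nat.factorial_pos n).ne'
    have hft : (n.factorial : ℝ≥0∞) ≠ ⊤ := ENNReal.natCast_ne_top _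
    rw [e] at h
    refine ⟨(ENNReal.mul_le_mul_iff_right hf0 hft).1 h.1, ?_⟩
    exact (ENNReal.mul_right_inj hf0 hft).symm.trans h.2

end Pool.Agent.Results.MP_5f4cdd_gt.MahlerAllBodies
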